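import Mathlib
import Pool.Agent.N124.CU.Stm

set_option autoImplicit false

/-!
# Project CU: assembly of the frozen statement
-/

namespace Pool.Agent.N353.CU

open Pool.Agent.N124.CU

/-- null coordinates to cartesian coordinates -/
noncomputable def toQ (u v : Fin 8 → ℂ) : Fin 8 → Fin 2 → ℂ := fun i =>
  ![(u i + v i) / 2, (u i - v i) / (2 * Complex.I)]

theorem toQ_dist (u v : Fin 8 → ℂ) (i j : Fin 8) :
    ∑ k, (toQ u v i k - toQ u v j k) ^ 2 = (u i - u j) * (v i - v j) := by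
  rw [Fin.sum_univ_two]
  simp only [toQ, Matrix.cons_val_zero, Matrix.cons_val_one]
  have hI : Complex.I ≠ 0 := Complex.I_ne_zero
  have h2 : (u i - v i) / (2 * Complex.I) - (u j - v j) / (2 * Complex.I) =
      ((u i - v i) - (u j - v j)) / (2 * Complex.I) := by ring
  rw [h2, div_pow, mul_pow, Complex.I_sq]
  ring

theorem t_asm : S_asm := by
  intro hcore hind hrig hcfin h
  obtain ⟨p, hp, hcard⟩ := h 8 G0 hrig
  have hx := hind p hp
  set x : Fin 13 → ℝ := fun e => ∑ k, (p (E13 e).1 k - p (E13 e).2 k) ^ 2 with hxdef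
  have hxpos : ∀ e, 0 < x e := by
    intro e
    have h0 : 0 ≤ x e := Finset.sum_nonneg (fun k _ => sq_nonneg _)
    have h1 : x e ≠ 0 := hx.ne_zero e
    exact lt_of_le_of_ne h0 (Ne.symm h1)
  obtain ⟨u, v, t, h1, h2, h3⟩ := hcore x hx (hxpos 0) (hxpos 1)
  set R : Set (Fin 8 → Fin 8 → ℝ) := {D : Fin 8 → Fin 8 → ℝ | ∃ q : Fin 8 → Fin 2 → ℝ,
          (∀ i j, G0.Adj i j → ∑ k, (q i k - q j k) ^ 2 = ∑ k, (p i k - p j k) ^ 2) ∧
          D = fun i j => ∑ k, (q i k - q j k) ^ 2} with hR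
  set C : Set (Fin 8 → Fin 8 → ℂ) := {D : Fin 8 → Fin 8 → ℂ | ∃ q : Fin 8 → Fin 2 → ℂ,
          (∀ i j, G0.Adj i j →
            ∑ k, (q i k - q j k) ^ 2 = ∑ k, ((p i k : ℂ) - (p j k : ℂ)) ^ 2) ∧
          D = fun i j => ∑ k, (q i k - q j k) ^ 2} with hC
  have hCfin : C.Finite := hcfin p hp
  let f : (Fin 8 → Fin 8 → ℝ) → (Fin 8 → Fin 8 → ℂ) := fun D i j => (D i j : ℂ)
  have hf : Function.Injective f := by
    intro D D' hDD
    funext i j
    have := congrFun (congrFun hDD i) j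
    exact Complex.ofReal_injective this
  have hsub : f '' R ⊆ C := by
    rintro _ ⟨D, ⟨q, hq1, hq2⟩, rfl⟩
    refine ⟨fun i k => (q i k : ℂ), ?_, ?_⟩
    · intro i j hij
      have := hq1 i j hij
      have h4 := congrArg (fun r : ℝ => (r : ℂ)) this
      push_cast at h4
      exact h4
    · funext i j
      simp only [f, hq2]
      push_cast
      rfl
  -- the additional complex realisation
  have hD0 : (fun i j => ∑ k, (toQ u v i k - toQ u v j k) ^ 2) ∈ C := by
    refine ⟨toQ u v, ?_, rfl⟩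
    intro i j hij
    rw [toQ_dist]
    obtain ⟨e, he⟩ := (adj_iff i j).mp hij
    have hxe : ((x e : ℝ) : ℂ) = ∑ k, ((p (E13 e).1 k : ℂ) - (p (E13 e).2 k : ℂ)) ^ 2 := by
      rw [hxdef]
      push_cast
      rfl
    have h1e := h1 e
    rw [hxe] at h1e
    rcases he with he | he
    · rw [he] at h1e
      exact h1e
    · rw [he] at h1e
      simp only at h1e
      have h5 : (u i - u j) * (v i - v j) = (u j - u i) * (v j - v i) := by ring
      rw [h5, h1e]
      refine Finset.sum_congr rfl (fun k _ => ?_)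
      ring
  have hnot : (fun i j => ∑ k, (toQ u v i k - toQ u v j k) ^ 2) ∉ f '' R := by
    rintro ⟨D, ⟨q, hq1, hq2⟩, hfD⟩
    have h54 := congrFun (congrFun hfD 5) 4
    simp only [f] at h54
    rw [toQ_dist, h2] at h54
    have h54' : D 5 4 = t := Complex.ofReal_injective h54
    have h04 := hq1 0 4 ((adj_iff 0 4).mpr ⟨0, Or.inl rfl⟩)
    have h05 := hq1 0 5 ((adj_iff 0 5).mpr ⟨1, Or.inl rfl⟩)
    have hx0 : x 0 = ∑ k, (p 0 k - p 4 k) ^ 2 := rfl
    have hx1 : x 1 = ∑ k, (p 0 k - p 5 k) ^ 2 := rfl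
    rw [← hx0] at h04
    rw [← hx1] at h05
    rw [hq2] at h54'
    simp only [Fin.sum_univ_two] at h04 h05 h54'
    rw [← h04, ← h05, ← h54'] at h3
    nlinarith [sq_nonneg ((q 0 0 - q 4 0) * (q 0 1 - q 5 1) - (q 0 1 - q 4 1) * (q 0 0 - q 5 0))]
  have hss : f '' R ⊂ C := by
    refine ⟨hsub, ?_⟩
    intro hle
    exact hnot (hle hD0)
  have hlt := Set.ncard_lt_ncard hss hCfin
  rw [Set.ncard_image_of_injective R hf] at hlt
  exact absurd hcard (ne_of_lt hlt)

end Pool.Agent.N353.CU
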