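import Mathlib
import Pool.Agent.N124.CU.Stm

set_option autoImplicit false

/-!
# Project CU: parity of the poles between two points
-/

namespace Pool.Agent.N353.CU

open Pool.Agent.N124.CU
open Filter Topology

theorem t_sign : S_sign := by
  classical
  intro m z n N ω hω hz hne hN hpole h1 h2
  -- the poles
  set Z : Finset (Fin m) := Finset.univ.filter (fun i => |z i| < ω) with hZ
  have hmemZ : ∀ i, i ∈ Z ↔ |z i| < ω := by intro i; simp [hZ]
  have hc : ∀ i, ∃ c : ℝ, i ∈ Z → c ≠ 0 ∧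
      Tendsto (fun w => (w - z i) ^ n i * N w) (𝓝[≠] (z i)) (𝓝 c) := by
    intro i
    by_cases hi : i ∈ Z
    · obtain ⟨c, hc1, hc2⟩ := hpole i ((hmemZ i).mp hi)
      exact ⟨c, fun _ => ⟨hc1, hc2⟩⟩
    · exact ⟨0, fun h => absurd h hi⟩
  choose c hc using hc
  -- the regularised function
  let M0 : ℝ → ℝ := fun w => (∏ i ∈ Z, (w - z i) ^ n i) * N w
  let M : ℝ → ℝ := fun w => if h : ∃ i ∈ Z, z i = w then
    c h.choose * ∏ j ∈ Z.erase h.choose, (w - z j) ^ n j else M0 w
  have hMz : ∀ i ∈ Z, M (z i) = c i * ∏ j ∈ Z.erase i, (z i - z j) ^ n j := by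
    intro i hi
    have hex : ∃ j ∈ Z, z j = z i := ⟨i, hi, rfl⟩
    have hch : hex.choose = i := hz hex.choose_spec.2
    simp only [M]
    rw [dif_pos hex, hch]
  have hMo : ∀ w, (∀ i ∈ Z, z i ≠ w) → M w = M0 w := by
    intro w hw
    simp only [M]
    rw [dif_neg]
    rintro ⟨i, hi, h⟩
    exact hw i hi h
  -- the other poles are not in the interval
  have hout : ∀ w, |w| ≤ ω → (∀ i ∈ Z, z i ≠ w) → ∀ i, z i ≠ w := by
    intro w hw h i hi
    by_cases hiZ : i ∈ Z
    · exact h i hiZ hi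
    · rw [hmemZ] at hiZ
      rw [← hi] at hw
      exact hne i (le_antisymm hw (not_lt.mp hiZ))
  -- near a point which is not a pole in `Z`, `M = M0`
  have hev : ∀ w, (∀ i ∈ Z, z i ≠ w) → M =ᶠ[𝓝 w] M0 := by
    intro w hw
    have h3 : ∀ i ∈ Z, ∀ᶠ w' in 𝓝 w, z i ≠ w' := by
      intro i hi
      filter_upwards [isOpen_ne.mem_nhds (Ne.symm (hw i hi))] with w' hw'
      exact Ne.symm hw'
    have h4 : ∀ᶠ w' in 𝓝 w, ∀ i ∈ Z, z i ≠ w' := (Filter.eventually_all_finset Z).mpr h3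
    filter_upwards [h4] with w' hw'
    exact hMo w' hw'
  have hprodcont : ∀ (s : Finset (Fin m)), Continuous (fun w : ℝ => ∏ i ∈ s, (w - z i) ^ n i) := by
    intro s
    exact continuous_finsetProd s (fun i _ => (continuous_id.sub continuous_const).pow _)
  -- continuity
  have hcont : ∀ w, |w| ≤ ω → ContinuousAt M w := by
    intro w hw
    by_cases hex : ∃ i ∈ Z, z i = w
    · obtain ⟨i, hi, rfl⟩ := hex
      rw [continuousAt_iff_punctured_nhds, hMz i hi]
      have h3 : Tendsto (fun w => ((w - z i) ^ n i * N w) * ∏ j ∈ Z.erase i, (w - z j) ^ n j)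
          (𝓝[≠] (z i)) (𝓝 (c i * ∏ j ∈ Z.erase i, (z i - z j) ^ n j)) :=
        (hc i hi).2.mul (((hprodcont (Z.erase i)).tendsto (z i)).mono_left nhdsWithin_le_nhds)
      refine h3.congr' ?_
      have h4 : ∀ j ∈ Z.erase i, ∀ᶠ w' in 𝓝 (z i), z j ≠ w' := by
        intro j hj
        have hji : z i ≠ z j := fun h => (Finset.mem_erase.mp hj).1 (hz h.symm)
        filter_upwards [isOpen_ne.mem_nhds hji] with w' hw'
        exact Ne.symm hw'
      have h5 : ∀ᶠ w' in 𝓝 (z i), ∀ j ∈ Z.erase i, z j ≠ w' :=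
        (Filter.eventually_all_finset _).mpr h4
      have h6 : ∀ᶠ w' in 𝓝[≠] (z i), ∀ j ∈ Z.erase i, z j ≠ w' := h5.filter_mono nhdsWithin_le_nhds
      filter_upwards [h6, self_mem_nhdsWithin] with w' hw' hw''
      have hw3 : ∀ j ∈ Z, z j ≠ w' := by
        intro j hj
        by_cases hji : j = i
        · rw [hji]; exact Ne.symm hw''
        · exact hw' j (Finset.mem_erase.mpr ⟨hji, hj⟩)
      rw [hMo w' hw3]
      simp only [M0]
      rw [← Finset.mul_prod_erase Z _ hi]
      ring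
    · push Not at hex
      have h3 : ContinuousAt M0 w :=
        ((hprodcont Z).continuousAt).mul (hN w hw (hout w hw hex)).1
      exact h3.congr (hev w hex).symm
  have hnz : ∀ w, |w| ≤ ω → M w ≠ 0 := by
    intro w hw
    by_cases hex : ∃ i ∈ Z, z i = w
    · obtain ⟨i, hi, rfl⟩ := hex
      rw [hMz i hi]
      refine mul_ne_zero (hc i hi).1 ?_
      rw [Finset.prod_ne_zero_iff]
      intro j hj
      refine pow_ne_zero _ (sub_ne_zero.mpr ?_)
      intro h
      exact (Finset.mem_erase.mp hj).1 (hz h.symm)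
    · push Not at hex
      rw [hMo w hex]
      refine mul_ne_zero ?_ (hN w hw (hout w hw hex)).2
      rw [Finset.prod_ne_zero_iff]
      intro j hj
      exact pow_ne_zero _ (sub_ne_zero.mpr (Ne.symm (hex j hj)))
  -- signs
  have hcontOn : ContinuousOn M (Set.Icc (-ω) ω) := fun w hw =>
    (hcont w (abs_le.mpr hw)).continuousWithinAt
  have hle : -ω ≤ ω := by linarith
  have hMω : 0 < M ω := by
    have h3 : ∀ i ∈ Z, z i ≠ ω := by
      intro i hi h
      rw [hmemZ, h, abs_of_pos hω] at hi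
      exact lt_irrefl _ hi
    rw [hMo ω h3]
    refine mul_pos (Finset.prod_pos ?_) h1
    intro i hi
    rw [hmemZ, abs_lt] at hi
    exact pow_pos (by linarith) _
  have hMm : 0 < M (-ω) := by
    by_contra hneg
    push Not at hneg
    have h3 : (0 : ℝ) ∈ M '' Set.Icc (-ω) ω :=
      intermediate_value_Icc hle hcontOn ⟨hneg, hMω.le⟩
    obtain ⟨w, hw, hw0⟩ := h3
    exact hnz w (abs_le.mpr hw) hw0
  have h3 : ∀ i ∈ Z, z i ≠ -ω := by
    intro i hi h
    rw [hmemZ, h, abs_neg, abs_of_pos hω] at hi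
    exact lt_irrefl _ hi
  rw [hMo (-ω) h3] at hMm
  have h4 : 0 < ∏ i ∈ Z, (-ω - z i) ^ n i := by
    by_contra hneg
    push Not at hneg
    exact absurd hMm (not_lt.mpr (mul_nonpos_of_nonpos_of_nonneg hneg h2.le))
  have h5 : ∏ i ∈ Z, (-ω - z i) ^ n i = (-1) ^ (∑ i ∈ Z, n i) * ∏ i ∈ Z, (ω + z i) ^ n i := by
    rw [← Finset.prod_pow_eq_pow_sum, ← Finset.prod_mul_distrib]
    refine Finset.prod_congr rfl ?_
    intro i _
    rw [← mul_pow]
    congr 1
    ring
  have h6 : 0 < ∏ i ∈ Z, (ω + z i) ^ n i := by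
    refine Finset.prod_pos ?_
    intro i hi
    rw [hmemZ, abs_lt] at hi
    exact pow_pos (by linarith) _
  have h7 : ∑ i, (if |z i| < ω then n i else 0) = ∑ i ∈ Z, n i := by
    rw [hZ, Finset.sum_filter]
  rw [h7]
  by_contra hodd
  rw [Nat.not_even_iff_odd] at hodd
  rw [h5, hodd.neg_one_pow] at h4
  linarith

end Pool.Agent.N353.CU
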