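import Mathlib
import Pool.Agent.N604.MW.Stm4
import Pool.Agent.N624.MW_Circ

/-! Project KV (helper604), task CIRC5 (helper353): the circle method, three ranges. -/

set_option autoImplicit false

open Finset MeasureTheory

namespace Pool.Agent.N353.KVCirc5

open Pool.Agent.N604.MW Pool.Agent.N624.MWCirc

lemma closed_arc (a b : ℝ) : IsClosed (Arc a b) := by
  unfold Arc
  exact (isClosed_le continuous_const continuous_abs).inter
    (isClosed_le continuous_abs continuous_const)

lemma arc_sub (a b : ℝ) : Arc a b ⊆ Set.Icc (-b) b := fun _ hx => abs_le.mp hx.2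

lemma compact_arc (a b : ℝ) : IsCompact (Arc a b) :=
  isCompact_Icc.of_isClosed_subset (closed_arc a b) (arc_sub a b)

lemma meas_arc (a b : ℝ) : MeasurableSet (Arc a b) := (closed_arc a b).measurableSet

lemma arc_int {f : ℝ → ℂ} (hf : Continuous f) (a b : ℝ) : IntegrableOn f (Arc a b) :=
  hf.continuousOn.integrableOn_compact (compact_arc a b)

lemma arc_intR {f : ℝ → ℝ} (hf : Continuous f) (a b : ℝ) : IntegrableOn f (Arc a b) :=
  hf.continuousOn.integrableOn_compact (compact_arc a b)

lemma mu_eq : mu = volume.restrict (Set.Icc (-(1 / 2) : ℝ) (1 / 2)) := by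
  unfold mu
  exact Measure.restrict_congr_set Ioc_ae_eq_Icc

/-- the integral over the large frequencies -/
lemma large_eq (η : ℝ) (f : ℝ → ℂ) :
    ∫ α, (({α : ℝ | η ≤ |α|}).indicator f) α ∂mu = ∫ α in Arc η (1 / 2), f α := by
  have hm : MeasurableSet {α : ℝ | η ≤ |α|} :=
    (isClosed_le continuous_const continuous_abs).measurableSet
  rw [integral_indicator hm, mu_eq, Measure.restrict_restrict hm]
  congr 2
  ext x
  simp only [Arc, Set.mem_inter_iff, Set.mem_ofPred_eq, Set.mem_Icc, abs_le]

/-- the integral over the middle frequencies -/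
lemma mid_le {a b : ℝ} {f : ℝ → ℝ} (hf : Continuous f) (h0 : ∀ x, 0 ≤ f x) :
    ∫ α, ((Arc a b).indicator f) α ∂mu ≤ ∫ α in Arc a b, f α := by
  rw [integral_indicator (meas_arc a b)]
  apply integral_mono_measure
  · unfold mu
    exact Measure.restrict_mono_measure Measure.restrict_le_self _
  · exact Filter.Eventually.of_forall h0
  · exact arc_intR hf a b

theorem circ5 : S_CIRC5 := by
  intro Ω Λ P L v p a w W η₁ η τ E0 hp hw hW hη₁ hη₁' hη hτ hE0 hT N hJ
  set A : ℝ := ∑ ω ∈ P, p ω with hA
  set B : ℝ := ∑ l ∈ L, w l with hB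
  have hA0 : 0 ≤ A := Finset.sum_nonneg fun ω _ => hp ω
  have hB0 : 0 ≤ B := Finset.sum_nonneg fun l _ => hw l
  have hW0 : (0 : ℝ) < W := by exact_mod_cast hW
  set K : ℝ := A * B * (2 * Real.pi * η₁ * W) with hK
  have hpi := Real.pi_pos
  have hK0 : 0 ≤ K := by positivity
  have hcU := cont_U P v p
  have hcF : Continuous fun α => U P v p α * U L a w α := hcU.mul (cont_U L a w)
  set G : ℝ → ℂ := fun α => U P v p α * U L a w α * Dl W α * e (-(α * N)) with hG
  have hcG : Continuous G := (hcF.mul (cont_Dl W)).mul (cont_eN N)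
  have hm : MeasurableSet {α : ℝ | η ≤ |α|} :=
    (isClosed_le continuous_const continuous_abs).measurableSet
  have h1 := dev hcF (R1 P L v p a w) (r1 P L v p a w) hW N
  have h2 : ∫ α, U P v p α * U L a w α * Dl W α * e (-(α * N)) ∂mu =
      (∫ α, ({α : ℝ | η ≤ |α|}ᶜ.indicator G) α ∂mu) +
        ∫ α, ({α : ℝ | η ≤ |α|}.indicator G) α ∂mu := by
    rw [← integral_add ((integ hcG).indicator hm.compl) ((integ hcG).indicator hm)]
    refine integral_congr_ae (Filter.Eventually.of_forall fun α => ?_)
    have h0 := Set.indicator_self_add_compl_apply {α : ℝ | η ≤ |α|} G α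
    rw [add_comm] at h0
    exact h0.symm
  -- the small and the middle frequencies
  have h3 : ‖∫ α, ({α : ℝ | η ≤ |α|}ᶜ.indicator G) α ∂mu‖ ≤
      16 * W * η₁ ^ 2 * A * B + 2 * τ * ∫ α in Arc η₁ η, ‖U P v p α‖ := by
    have h4 : ‖∫ α, ({α : ℝ | η ≤ |α|}ᶜ.indicator G) α ∂mu‖ ≤
        ∫ α, ((Set.Icc (-η₁) η₁).indicator (fun _ => K) α +
          2 * τ * (Arc η₁ η).indicator (fun α => ‖U P v p α‖) α) ∂mu := by
      refine norm_integral_le_of_norm_le ?_ ?_
      · refine Integrable.add ?_ ?_
        · exact (integrable_const K).indicator measurableSet_Icc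
        · exact (((integR hcU.norm).indicator (meas_arc _ _))).const_mul _
      · filter_upwards [mem_half] with α hα
        have hU := norm_U P v p hp α
        have hV := norm_U L a w hw α
        have hU0 := norm_nonneg (U P v p α)
        have hV0 := norm_nonneg (U L a w α)
        have hD0 := norm_nonneg (Dl W α)
        have hi1 : 0 ≤ (Set.Icc (-η₁) η₁).indicator (fun _ => K) α :=
          Set.indicator_nonneg (fun _ _ => hK0) _
        have hi2 : 0 ≤ 2 * τ * (Arc η₁ η).indicator (fun α => ‖U P v p α‖) α :=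
          mul_nonneg (by positivity) (Set.indicator_nonneg (fun _ _ => norm_nonneg _) _)
        by_cases hbig : η ≤ |α|
        · rw [Set.indicator_of_notMem (by simpa using hbig), norm_zero]
          linarith
        · have hlt : |α| < η := not_le.mp hbig
          rw [Set.indicator_of_mem (by simpa using hlt), hG]
          dsimp only
          rw [norm_mul, norm_mul, norm_mul, norm_e, mul_one]
          by_cases hs : |α| ≤ η₁
          · have hmem : α ∈ Set.Icc (-η₁) η₁ := abs_le.mp hs
            rw [Set.indicator_of_mem hmem]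
            have hD := Dl_small hW α
            have h3 : ‖Dl W α‖ ≤ 2 * Real.pi * η₁ * W := by
              refine hD.trans ?_
              gcongr
            have h4 : ‖U P v p α‖ * ‖U L a w α‖ * ‖Dl W α‖ ≤ K := by
              rw [hK]
              gcongr
            linarith
          · have hs' : η₁ < |α| := not_le.mp hs
            have hmem : α ∈ Arc η₁ η := ⟨hs'.le, hlt.le⟩
            rw [Set.indicator_of_mem hmem]
            have hD := Dl_two hW α
            have hT' : ‖U L a w α‖ ≤ τ := hT α hs'.le hα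
            have h5 : ‖U P v p α‖ * ‖U L a w α‖ * ‖Dl W α‖ ≤ 2 * τ * ‖U P v p α‖ := by
              calc ‖U P v p α‖ * ‖U L a w α‖ * ‖Dl W α‖ ≤ ‖U P v p α‖ * τ * 2 := by gcongr
                _ = 2 * τ * ‖U P v p α‖ := by ring
            linarith
    rw [integral_add, integral_const_mul] at h4
    · have h6 := small_int hη₁.le hK0
      have h7 : 2 * η₁ * K ≤ 16 * W * η₁ ^ 2 * A * B := by
        rw [hK]
        have : 2 * η₁ * (A * B * (2 * Real.pi * η₁ * W)) =
            Real.pi * (4 * W * η₁ ^ 2 * A * B) := by ring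
        rw [this]
        have h8 : Real.pi ≤ 4 := Real.pi_le_four
        have h9 : 0 ≤ 4 * W * η₁ ^ 2 * A * B := by positivity
        nlinarith
      have h8 : 2 * τ * ∫ α, (Arc η₁ η).indicator (fun α => ‖U P v p α‖) α ∂mu ≤
          2 * τ * ∫ α in Arc η₁ η, ‖U P v p α‖ :=
        mul_le_mul_of_nonneg_left (mid_le hcU.norm fun _ => norm_nonneg _) (by positivity)
      linarith
    · exact (integrable_const K).indicator measurableSet_Icc
    · exact (((integR hcU.norm).indicator (meas_arc _ _))).const_mul _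
  -- the large frequencies
  have h5 : ‖∫ α, ({α : ℝ | η ≤ |α|}.indicator G) α ∂mu‖ ≤ 2 * E0 * B := by
    rw [large_eq]
    set J : ℤ → ℂ := fun M => ∫ β in Arc η (1 / 2), U P v p β * e (-(β * (M : ℝ))) with hJdef
    have hcJ : ∀ M : ℤ, Continuous fun β : ℝ => U P v p β * e (-(β * (M : ℝ))) :=
      fun M => hcU.mul (cont_eN M)
    have hW1 : (W : ℂ) ≠ 0 := by
      have : W ≠ 0 := by omega
      exact_mod_cast this
    have h6 : ∀ α : ℝ, G α = ∑ l ∈ L, ((w l : ℂ) * (U P v p α * e (-(α * ((N - a l : ℤ) : ℝ)))) -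
        (∑ h ∈ range W, U P v p α * e (-(α * ((N + h - a l : ℤ) : ℝ)))) * ((w l : ℂ) * (W : ℂ)⁻¹)) := by
      intro α
      rw [hG]
      dsimp only
      have e1 : ∀ l : Λ, e (-(α * ((N - a l : ℤ) : ℝ))) = e (α * a l) * e (-(α * N)) := by
        intro l
        rw [← e_add]
        congr 1
        push_cast
        ring
      have e2 : ∀ (l : Λ) (h : ℕ), e (-(α * ((N + h - a l : ℤ) : ℝ))) =
          e (α * a l) * e (-(α * N)) * e (-(α * h)) := by
        intro l h
        rw [← e_add, ← e_add]
        congr 1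
        push_cast
        ring
      simp only [e1, e2]
      unfold Dl
      have e3 : U L a w α = ∑ l ∈ L, (w l : ℂ) * e (α * a l) := rfl
      rw [e3, Finset.mul_sum, Finset.sum_mul, Finset.sum_mul]
      refine Finset.sum_congr rfl fun l _ => ?_
      rw [← Finset.mul_sum, ← Finset.mul_sum]
      ring
    have h7 : ∫ α in Arc η (1 / 2), G α = ∑ l ∈ L, ((w l : ℂ) * J (N - a l) -
        (∑ h ∈ range W, J (N + h - a l)) * ((w l : ℂ) * (W : ℂ)⁻¹)) := by
      simp only [h6]
      rw [integral_finsetSum]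
      · refine Finset.sum_congr rfl fun l _ => ?_
        rw [integral_sub, integral_const_mul, integral_mul_const, integral_finsetSum]
        · intro h _
          exact arc_int (hcJ _) _ _
        · exact (arc_int (hcJ _) _ _).const_mul _
        · exact (arc_int (continuous_finsetSum _ fun h _ => hcJ _) _ _).mul_const _
      · intro l _
        refine Integrable.sub ?_ ?_
        · exact (arc_int (hcJ _) _ _).const_mul _
        · exact (arc_int (continuous_finsetSum _ fun h _ => hcJ _) _ _).mul_const _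
    rw [h7]
    have hJ' : ∀ l ∈ L, ∀ h : ℕ, h ≤ W → ‖J (N + h - a l)‖ ≤ E0 := hJ
    refine (norm_sum_le _ _).trans ?_
    have h8 : ∀ l ∈ L, ‖(w l : ℂ) * J (N - a l) -
        (∑ h ∈ range W, J (N + h - a l)) * ((w l : ℂ) * (W : ℂ)⁻¹)‖ ≤ 2 * E0 * w l := by
      intro l hl
      have h9 : ‖J (N - a l)‖ ≤ E0 := by
        have := hJ' l hl 0 (Nat.zero_le _)
        simpa using this
      have h10 : ‖∑ h ∈ range W, J (N + h - a l)‖ ≤ W * E0 := by
        refine (norm_sum_le _ _).trans ?_
        refine (Finset.sum_le_sum fun h hh => hJ' l hl h (Finset.mem_range.mp hh).le).trans ?_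
        rw [Finset.sum_const, Finset.card_range, nsmul_eq_mul]
      refine (norm_sub_le _ _).trans ?_
      rw [norm_mul, norm_mul, norm_mul, norm_inv, Complex.norm_natCast, Complex.norm_real,
        Real.norm_eq_abs, abs_of_nonneg (hw l)]
      have h11 : ‖∑ h ∈ range W, J (N + h - a l)‖ * (w l * (W : ℝ)⁻¹) ≤ E0 * w l := by
        calc ‖∑ h ∈ range W, J (N + h - a l)‖ * (w l * (W : ℝ)⁻¹)
            ≤ (W * E0) * (w l * (W : ℝ)⁻¹) := by
              apply mul_le_mul_of_nonneg_right h10
              exact mul_nonneg (hw l) (by positivity)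
          _ = E0 * w l * (W * (W : ℝ)⁻¹) := by ring
          _ = E0 * w l := by rw [mul_inv_cancel₀ hW0.ne', mul_one]
      have h12 : w l * ‖J (N - a l)‖ ≤ w l * E0 := mul_le_mul_of_nonneg_left h9 (hw l)
      linarith
    refine (Finset.sum_le_sum h8).trans ?_
    rw [← Finset.mul_sum]
  have h13 : |R1 P L v p a w N - (∑ h ∈ range W, R1 P L v p a w (N + h)) / W| ≤
      ‖∫ α, ({α : ℝ | η ≤ |α|}ᶜ.indicator G) α ∂mu‖ +
        ‖∫ α, ({α : ℝ | η ≤ |α|}.indicator G) α ∂mu‖ := by
    rw [← Real.norm_eq_abs, ← Complex.norm_real, h1, h2]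
    exact norm_add_le _ _
  have h14 : ∫ α in Arc η₁ η, ‖U P v p α‖ =
      ∫ β in Arc η₁ η, ‖∑ ω ∈ P, (p ω : ℂ) * e (β * v ω)‖ := rfl
  rw [← h14]
  linarith

end Pool.Agent.N353.KVCirc5
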