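import Pool.Agent.N347.LA.Defs
import Pool.Agent.N347.LA.Stm
import Pool.Agent.N347.LB.Stm

set_option autoImplicit false

/-! LB/MAIN (helper353 for helper347) -/

namespace Pool.Agent.N353.LBMAIN

open Finset Pool.Agent.N347.LA

/-- a function of the group, summed over the colours -/
theorem group_sum {t n D : ℕ} (g : Fin n → Fin t) (hg : ∀ i, (g i : ℕ) = (i : ℕ) / D) (hD : 0 < D)
    (F : Fin t → ℕ) : ∑ i, F (g i) ≤ D * ∑ b, F b := by
  classical
  have h1 : ∑ i, F (g i) = ∑ b, ∑ i ∈ univ.filter (fun i => g i = b), F (g i) :=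
    (sum_fiberwise univ g fun i => F (g i)).symm
  rw [h1, mul_sum]
  refine sum_le_sum fun b _ => ?_
  have h2 : ∑ i ∈ univ.filter (fun i => g i = b), F (g i) =
      (univ.filter (fun i => g i = b)).card * F b := by
    rw [sum_congr rfl fun i hi => by rw [(mem_filter.1 hi).2], sum_const, smul_eq_mul]
  rw [h2]
  refine Nat.mul_le_mul_right _ ?_
  have h3 : (univ.filter (fun i => g i = b)).card ≤ (range D).card := by
    refine card_le_card_of_injOn (fun i : Fin n => (i : ℕ) % D) ?_ ?_
    · intro i _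
      exact mem_coe.2 (mem_range.2 (Nat.mod_lt _ hD))
    · intro i hi j hj hij
      have e1 : (i : ℕ) / D = b := by
        rw [← hg i, (mem_filter.1 (mem_coe.1 hi)).2]
      have e2 : (j : ℕ) / D = b := by
        rw [← hg j, (mem_filter.1 (mem_coe.1 hj)).2]
      have e3 : (i : ℕ) % D = (j : ℕ) % D := hij
      apply Fin.ext
      rw [← Nat.div_add_mod (i : ℕ) D, ← Nat.div_add_mod (j : ℕ) D, e1, e2, e3]
  rwa [card_range] at h3

/-- LB/MAIN.  Blow-ups of `H` by independent sets (`c = false`) or cliques (`c = true`) of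
size `m`. -/
theorem main {V W : Type} [Finite V] [Finite W] (H : SimpleGraph V) (c : Bool)
    (d m m₀ q κ t n L : ℕ) (h1 : 1 ≤ m₀) (hq : 1 ≤ q) (hκ : 3 ≤ κ)
    (hH : ∀ v, (H.neighborSet v).ncard = d)
    (hn : 2 * n = d * m + if c then m - 1 else 0)
    (hcond : ∀ s < t * q, (d - s * m₀) / m₀ + m₀ + κ ≤ d - s * m₀ + 3)
    (h2 : κ ≤ (m₀ + 1) * 2 ^ (q - 1)) (h3 : n ≤ t * (m ^ 2 / 2)) (h4 : q * m₀ ≤ m)
    (h5 : 2 * n ≤ L * κ) (h6 : L + 4 ≤ 2 * m)
    (f : W → V) (hf : ∀ v, {x | f x = v}.ncard = m) (G : SimpleGraph W)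
    (hG : ∀ x y, G.Adj x y ↔ x ≠ y ∧ (H.Adj (f x) (f y) ∨ (f x = f y ∧ c = true))) :
    H931R3.LA.Cov G (n + 1) := by
  classical
  haveI : Fintype V := Fintype.ofFinite V
  set R : V → V → Prop := fun u v => H.Adj u v ∨ (u = v ∧ c = true) with hRdef
  have hR : ∀ u v, R u v → R v u := by
    intro u v h
    rcases h with h | h
    · exact Or.inl h.symm
    · exact Or.inr ⟨h.1.symm, h.2⟩
  obtain ⟨N, hN1, hN2, hN3, hN4, hN5⟩ :=
    Pool.Agent.N347.LB.Stm.pack H d m₀ q κ t h1 hq hκ hH hcond h2
  set D : ℕ := m ^ 2 / 2 with hDdef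
  have hgt : ∀ i : Fin n, (i : ℕ) / D < t := fun i =>
    Nat.div_lt_of_lt_mul (lt_of_lt_of_le i.2 (by rw [mul_comm]; exact h3))
  set g : Fin n → Fin t := fun i => ⟨(i : ℕ) / D, hgt i⟩ with hgdef
  set J : Fin n → V → V → ℕ := fun i u v => N (g i) u v + N (g i) v u with hJdef
  have hrow : ∀ v, ∑ u, mul R (fun _ => m) v u = n * (2 * m) := by
    intro v
    have e1 : ∀ u, mul R (fun _ => m) v u = (if H.Adj v u then m * m else 0) +
        (if v = u then (if c = true then m * (m - 1) else 0) else 0) := by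
      intro u
      unfold mul
      by_cases hvu : v = u
      · subst hvu
        have hirr : ¬ H.Adj v v := H.loopless.irrefl v
        rw [if_neg hirr, if_pos rfl, zero_add, if_pos rfl]
        by_cases hc : c = true
        · rw [if_pos (Or.inr ⟨rfl, hc⟩), if_pos hc]
        · rw [if_neg hc, if_neg]
          rintro (h | h)
          · exact hirr h
          · exact hc h.2
      · rw [if_neg hvu, if_neg hvu, add_zero]
        by_cases ha : H.Adj v u
        · rw [if_pos ha, if_pos (Or.inl ha)]
        · rw [if_neg ha, if_neg]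
          rintro (h | h)
          · exact ha h
          · exact hvu h.1
    rw [sum_congr rfl fun u _ => e1 u, sum_add_distrib, ← sum_filter, sum_const, smul_eq_mul,
      sum_ite_eq univ v, if_pos (mem_univ v)]
    have e2 : (univ.filter (fun u => H.Adj v u)).card = d := by
      rw [← hH v, ← Set.ncard_coe_finset]
      congr 1
      ext u
      simp
    rw [e2]
    have e3 : n * (2 * m) = (2 * n) * m := by ring
    rw [e3, hn]
    by_cases hc : c = true
    · rw [if_pos hc, if_pos hc]
      ring
    · rw [if_neg hc, if_neg hc]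
      ring
  have hJs : ∀ i u v, J i u v = J i v u := fun i u v => add_comm _ _
  have hJd : ∀ i v, J i v v = 0 := by
    intro i v
    have : N (g i) v v = 0 := hN3 (g i) v v (H.loopless.irrefl v)
    show N (g i) v v + N (g i) v v = 0
    rw [this]
  have hJr : ∀ i v, ∑ u, J i v u = 2 * (q * m₀) := by
    intro i v
    show ∑ u, (N (g i) v u + N (g i) u v) = 2 * (q * m₀)
    rw [sum_add_distrib, hN1, hN2]
    ring
  have hJT : ∀ u v, ∑ i, J i u v ≤ mul R (fun _ => m) u v := by
    intro u v
    by_cases ha : H.Adj u v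
    · have e1 : mul R (fun _ => m) u v = m * m := by
        unfold mul
        rw [if_pos (Or.inl ha), if_neg ha.ne]
      rw [e1]
      by_cases hD0 : 0 < D
      · have e2 := group_sum g (fun i => rfl) hD0 (fun b => N b u v + N b v u)
        have e3 : ∑ b, (N b u v + N b v u) ≤ 2 := by
          rw [sum_add_distrib]
          have a1 := hN4 u v
          have a2 := hN4 v u
          omega
        have e4 : D * ∑ b, (N b u v + N b v u) ≤ D * 2 := Nat.mul_le_mul_left _ e3
        have e5 : D * 2 ≤ m * m := by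
          rw [hDdef, ← sq]
          exact Nat.div_mul_le_self _ _
        exact e2.trans (e4.trans e5)
      · have hn0 : n = 0 := by
          have : D = 0 := by omega
          rw [this, mul_zero] at h3
          omega
        have : ∑ i : Fin n, J i u v = 0 := by
          refine sum_eq_zero fun i _ => ?_
          exact absurd i.2 (by omega)
        rw [this]
        exact Nat.zero_le _
    · have : ∑ i, J i u v = 0 := by
        refine sum_eq_zero fun i _ => ?_
        show N (g i) u v + N (g i) v u = 0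
        rw [hN3 (g i) u v ha, hN3 (g i) v u fun h => ha h.symm]
      rw [this]
      exact Nat.zero_le _
  have hst : HasState R (n + 1) (fun v : V => v) (fun _ => m) :=
    Pool.Agent.N347.LB.Stm.state R hR m (q * m₀) n κ L J hrow hJs hJd hJr
      (Nat.mul_pos hq h1) h4 hJT (by omega) (fun i v => hN5 (g i) v) h5 h6
  obtain ⟨B, iB, q', hB, hst'⟩ := Pool.Agent.N347.LA.Stm.iter R hR (n + 1) (∑ _a : V, (m - 1)) V
    (fun v : V => v) (fun _ => m) rfl hst
  refine Pool.Agent.N347.LA.Stm.final R hR (n + 1) q' f G hG (fun v => ?_) hst'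
  rw [hf v]
  have e1 := hB v
  have e2 : ∑ a ∈ univ.filter (fun a : V => a = v), m = m := by
    rw [filter_eq' univ v, if_pos (mem_univ v), sum_singleton]
  rw [e2] at e1
  rw [← e1, ← Set.ncard_coe_finset]
  congr 1
  ext b
  simp

end Pool.Agent.N353.LBMAIN
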