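import Pool.Agent.N353.NT_LAT

set_option autoImplicit false

/-!
# Part BOX: number of solutions of congruences with sum zero in a box
-/

namespace Pool.Agent.N353.NT

open Finset
open Pool.Agent.N906.NT

/-- the box `[a, a + M Q)` -/
theorem box_set (n : ℕ) (D : Fin n → ℕ) (c : Fin n → ℤ) (M Q : ℕ) (a : ℤ) (l : Fin n) (hM : 1 ≤ M)
    (hQ : 1 ≤ Q) (hD : ∀ i, 1 ≤ D i ∧ D i ∣ M) (hc : ((univ.gcd D : ℕ) : ℤ) ∣ ∑ i, c i) :
    ∃ F : Finset (Fin n → ℤ), (∀ y, y ∈ F ↔ (∑ i, y i = 0 ∧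
      (∀ k, k ≠ l → a ≤ y k ∧ y k < a + (M * Q : ℕ)) ∧
      ∀ i, (D i : ℤ) ∣ y i - c i)) ∧ F.card * ∏ i, D i = (M * Q) ^ (n - 1) * univ.gcd D := by
  classical
  let sh : Fin n → ℤ := fun k => if k = l then - ∑ _i ∈ univ.erase l, a else a
  have hsh : ∑ i, sh i = 0 := by
    rw [← Finset.add_sum_erase _ _ (mem_univ l)]
    have h1 : ∑ i ∈ univ.erase l, sh i = ∑ _i ∈ univ.erase l, a := by
      refine Finset.sum_congr rfl fun i hi => ?_
      exact if_neg (Finset.ne_of_mem_erase hi)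
    rw [h1]
    have h2 : sh l = - ∑ _i ∈ univ.erase l, a := if_pos rfl
    rw [h2]
    ring
  obtain ⟨F, hF, hcard⟩ := lat_set n D (c - sh) (M * Q) l (Nat.mul_pos hM hQ)
    (fun i => ⟨(hD i).1, (hD i).2.mul_right Q⟩) (by
      simp only [Pi.sub_apply, Finset.sum_sub_distrib, hsh, sub_zero]
      exact hc)
  refine ⟨F.map (Equiv.addRight sh).toEmbedding, fun y => ?_, ?_⟩
  · rw [Finset.mem_map_equiv, Equiv.addRight_symm]
    have h0 : (Equiv.addRight (-sh)) y = y + -sh := rfl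
    rw [h0, hF]
    have h1 : ∑ i, (y + -sh) i = ∑ i, y i := by
      simp only [Pi.add_apply, Pi.neg_apply, Finset.sum_add_distrib, Finset.sum_neg_distrib, hsh,
        neg_zero, add_zero]
    rw [h1]
    refine and_congr Iff.rfl (and_congr ?_ ?_)
    · refine forall_congr' fun k => forall_congr' fun hk => ?_
      have h2 : (y + -sh) k = y k - a := by
        simp only [Pi.add_apply, Pi.neg_apply, sh, if_neg hk]
        ring
      rw [h2]
      constructor
      · rintro ⟨h3, h4⟩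
        exact ⟨by linarith, by linarith⟩
      · rintro ⟨h3, h4⟩
        exact ⟨by linarith, by linarith⟩
    · refine forall_congr' fun i => ?_
      have h2 : (y + -sh) i - (c - sh) i = y i - c i := by
        simp only [Pi.add_apply, Pi.neg_apply, Pi.sub_apply]
        ring
      rw [h2]
  · rw [Finset.card_map]
    exact hcard

theorem box (_h : S_LAT) : S_BOX := by
  intro n D c M l Y F hM hY hD hc hF
  have hM' : (0 : ℝ) < M := by exact_mod_cast hM
  have hY0 : 0 < Y := by linarith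
  set Q : ℕ := ⌊Y / (2 * M)⌋₊ with hQ
  have hle : (Q : ℝ) ≤ Y / (2 * M) := Nat.floor_le (by positivity)
  have hlt : Y / (2 * M) < Q + 1 := Nat.lt_floor_add_one _
  have h2 : 2 ≤ Y / (2 * M) := by
    rw [le_div_iff₀ (by positivity)]
    linarith
  have hQ1 : 1 ≤ Q := by
    rw [hQ]
    exact Nat.le_floor (by push_cast; linarith)
  have hMQ : (M : ℝ) * Q ≤ Y / 2 := by
    calc (M : ℝ) * Q ≤ M * (Y / (2 * M)) := by gcongr
      _ = Y / 2 := by field_simp
  have hMQ' : Y / 2 < (M : ℝ) * (Q + 1) := by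
    calc Y / 2 = M * (Y / (2 * M)) := by field_simp
      _ < (M : ℝ) * (Q + 1) := by gcongr
  have hP : (0 : ℝ) < ((∏ i, D i : ℕ) : ℝ) := by
    have : 0 < ∏ i, D i := Finset.prod_pos fun i _ => (hD i).1
    exact_mod_cast this
  have hg0 : (0 : ℝ) ≤ ((univ.gcd D : ℕ) : ℝ) := by positivity
  constructor
  · obtain ⟨G, hG, hcard⟩ := box_set n D c M Q (⌊Y / 2⌋ + 1) l hM hQ1 hD hc
    have hsub : G ⊆ F := by
      intro y hy
      obtain ⟨h3, h4, h5⟩ := (hG y).1 hy
      refine (hF y).2 ⟨h3, fun k hk => ?_, h5⟩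
      obtain ⟨h6, h7⟩ := h4 k hk
      constructor
      · exact Int.floor_lt.1 (by linarith)
      · have h8 : y k ≤ ⌊Y / 2⌋ + (M * Q : ℕ) := by linarith
        have h9 : (y k : ℝ) ≤ (⌊Y / 2⌋ : ℝ) + M * Q := by exact_mod_cast h8
        have h10 := Int.floor_le (Y / 2)
        linarith
    have h3 : (G.card : ℝ) ≤ F.card := by exact_mod_cast Finset.card_le_card hsub
    refine le_trans ?_ h3
    rw [div_le_iff₀ hP]
    have h4 : (G.card : ℝ) * ((∏ i, D i : ℕ) : ℝ) = ((M : ℝ) * Q) ^ (n - 1) * (univ.gcd D : ℕ) := by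
      exact_mod_cast hcard
    rw [h4]
    have h5 : Y / 4 ≤ (M : ℝ) * Q := by linarith
    gcongr
  · obtain ⟨G, hG, hcard⟩ := box_set n D c M (Q + 1) (⌊Y / 2⌋ + 1) l hM (by omega) hD hc
    have hsub : F ⊆ G := by
      intro y hy
      obtain ⟨h3, h4, h5⟩ := (hF y).1 hy
      refine (hG y).2 ⟨h3, fun k hk => ?_, h5⟩
      obtain ⟨h6, h7⟩ := h4 k hk
      constructor
      · have := Int.floor_lt.2 h6
        linarith
      · have h8 := Int.lt_floor_add_one (Y / 2)
        have h9 : (y k : ℝ) < (⌊Y / 2⌋ : ℝ) + 1 + M * (Q + 1) := by linarith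
        have h10 : (y k : ℝ) < ((⌊Y / 2⌋ + 1 + (M * (Q + 1) : ℕ) : ℤ) : ℝ) := by
          push_cast
          linarith
        exact_mod_cast h10
    have h3 : (F.card : ℝ) ≤ G.card := by exact_mod_cast Finset.card_le_card hsub
    refine h3.trans ?_
    rw [le_div_iff₀ hP]
    have h4 : (G.card : ℝ) * ((∏ i, D i : ℕ) : ℝ) =
        ((M : ℝ) * (Q + 1)) ^ (n - 1) * (univ.gcd D : ℕ) := by
      exact_mod_cast hcard
    rw [h4]
    have h5 : (M : ℝ) * (Q + 1) ≤ Y := by linarith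
    gcongr

end Pool.Agent.N353.NT
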