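import Pool.Agent.N906.NT.Stm

set_option autoImplicit false

/-!
# Part LAT: number of solutions of congruences with sum zero
-/

namespace Pool.Agent.N353.NT

open Finset
open Pool.Agent.N906.NT

theorem bezout {ι : Type} [DecidableEq ι] (D : ι → ℕ) (s : Finset ι) :
    ∃ u : ι → ℤ, ∑ i ∈ s, u i * D i = ((s.gcd D : ℕ) : ℤ) := by
  induction s using Finset.induction_on with
  | empty => exact ⟨0, by simp⟩
  | insert j s hj ih =>
    obtain ⟨u, hu⟩ := ih
    refine ⟨fun i => if i = j then Nat.gcdA (D j) (s.gcd D) else Nat.gcdB (D j) (s.gcd D) * u i, ?_⟩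
    rw [Finset.sum_insert hj, Finset.gcd_insert]
    have h1 : ∑ i ∈ s, (if i = j then Nat.gcdA (D j) (s.gcd D)
        else Nat.gcdB (D j) (s.gcd D) * u i) * (D i : ℤ) = Nat.gcdB (D j) (s.gcd D) * (s.gcd D : ℕ) := by
      rw [← hu, Finset.mul_sum]
      refine Finset.sum_congr rfl fun i hi => ?_
      have hne : i ≠ j := fun h => hj (h ▸ hi)
      rw [if_neg hne]
      ring
    rw [h1]
    simp only [if_true]
    have h2 : ((GCDMonoid.gcd (D j) (s.gcd D) : ℕ) : ℤ) = ((Nat.gcd (D j) (s.gcd D) : ℕ) : ℤ) := rfl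
    rw [h2, Nat.gcd_eq_gcd_ab]
    ring

section core

variable {n : ℕ} (D : Fin n → ℕ) (M : ℕ)

/-- the sum and the residues -/
noncomputable def Psi (hD : ∀ i, D i ∣ M) : (Fin n → ZMod M) →+ ZMod M × (∀ i, ZMod (D i)) :=
  AddMonoidHom.mk' (fun z => (∑ i, z i, fun i => ZMod.castHom (hD i) (ZMod (D i)) (z i)))
    (by
      intro a b
      refine Prod.ext ?_ ?_
      · simp [Finset.sum_add_distrib]
      · funext i
        exact map_add _ _ _)

/-- the compatibility condition -/
noncomputable def Theta (g : ℕ) (hg : g ∣ M) (hgD : ∀ i, g ∣ D i) :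
    ZMod M × (∀ i, ZMod (D i)) →+ ZMod g :=
  AddMonoidHom.mk' (fun p => ZMod.castHom hg (ZMod g) p.1 -
      ∑ i, ZMod.castHom (hgD i) (ZMod g) (p.2 i))
    (by
      intro a b
      simp only [Prod.fst_add, Prod.snd_add, Pi.add_apply, map_add, Finset.sum_add_distrib]
      ring)

theorem Psi_apply (hD : ∀ i, D i ∣ M) (z : Fin n → ZMod M) :
    Psi D M hD z = (∑ i, z i, fun i => ZMod.castHom (hD i) (ZMod (D i)) (z i)) := rfl

theorem Theta_apply (g : ℕ) (hg : g ∣ M) (hgD : ∀ i, g ∣ D i) (p : ZMod M × (∀ i, ZMod (D i))) :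
    Theta D M g hg hgD p = ZMod.castHom hg (ZMod g) p.1 -
      ∑ i, ZMod.castHom (hgD i) (ZMod g) (p.2 i) := rfl

theorem range_eq_ker (hD : ∀ i, D i ∣ M) (hg : (univ.gcd D) ∣ M)
    (hgD : ∀ i, (univ.gcd D) ∣ D i) :
    (Psi D M hD).range = (Theta D M (univ.gcd D) hg hgD).ker := by
  apply le_antisymm
  · rintro p ⟨z, rfl⟩
    rw [AddMonoidHom.mem_ker, Theta_apply, Psi_apply]
    simp only [map_sum]
    rw [← Finset.sum_sub_distrib]
    refine Finset.sum_eq_zero fun i _ => ?_
    rw [sub_eq_zero]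
    obtain ⟨a, ha⟩ := ZMod.intCast_surjective (z i)
    rw [← ha, map_intCast, map_intCast, map_intCast]
  · rintro ⟨s, a⟩ hp
    rw [AddMonoidHom.mem_ker, Theta_apply] at hp
    obtain ⟨s', rfl⟩ := ZMod.intCast_surjective s
    have ha : ∀ i, ∃ a' : ℤ, (a' : ZMod (D i)) = a i := fun i => ZMod.intCast_surjective (a i)
    choose a' ha' using ha
    simp only [← ha', map_intCast] at hp
    have h1 : ((s' - ∑ i, a' i : ℤ) : ZMod (univ.gcd D)) = 0 := by
      push_cast
      exact hp
    rw [ZMod.intCast_zmod_eq_zero_iff_dvd] at h1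
    obtain ⟨t, ht⟩ := h1
    obtain ⟨u, hu⟩ := bezout D univ
    refine ⟨fun i => ((a' i + u i * D i * t : ℤ) : ZMod M), ?_⟩
    rw [Psi_apply]
    refine Prod.ext ?_ ?_
    · simp only
      rw [← Int.cast_sum]
      congr 1
      rw [Finset.sum_add_distrib, ← Finset.sum_mul, hu]
      linarith
    · funext i
      simp only
      rw [map_intCast, ← ha' i]
      push_cast
      simp

/-- the number of the solutions modulo `M` -/
theorem card_fib (hM : 1 ≤ M) (hD : ∀ i, 1 ≤ D i ∧ D i ∣ M) (l : Fin n) (c : Fin n → ℤ)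
    (hc : ((univ.gcd D : ℕ) : ℤ) ∣ ∑ i, c i) [NeZero M] [∀ i, NeZero (D i)] :
    (univ.filter fun z : Fin n → ZMod M =>
      Psi D M (fun i => (hD i).2) z = (0, fun i => (c i : ZMod (D i)))).card * ∏ i, D i =
      M ^ (n - 1) * univ.gcd D := by
  classical
  have hgD : ∀ i, (univ.gcd D) ∣ D i := fun i => Finset.gcd_dvd (mem_univ i)
  have hg : (univ.gcd D) ∣ M := (hgD l).trans (hD l).2
  have hg0 : univ.gcd D ≠ 0 := by
    intro h0
    have h1 := hgD l
    rw [h0, Nat.zero_dvd] at h1
    have := (hD l).1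
    omega
  have hNe : NeZero (univ.gcd D) := ⟨hg0⟩
  set Ψ := Psi D M (fun i => (hD i).2) with hΨ
  set Θ := Theta D M (univ.gcd D) hg hgD with hΘ
  -- the fibre is a coset of the kernel
  have h0 : ((0 : ZMod M), fun i => (c i : ZMod (D i))) ∈ Ψ.range := by
    rw [hΨ, range_eq_ker D M _ hg hgD, AddMonoidHom.mem_ker, Theta_apply]
    simp only [map_zero, map_intCast]
    rw [← Int.cast_sum, zero_sub, neg_eq_zero, ZMod.intCast_zmod_eq_zero_iff_dvd]
    exact hc
  have hfib : (univ.filter fun z : Fin n → ZMod M =>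
      Ψ z = (0, fun i => (c i : ZMod (D i)))).card = Nat.card Ψ.ker := by
    obtain ⟨z0, hz0⟩ := h0
    rw [← hz0, Nat.card_eq_fintype_card, Fintype.card_subtype]
    symm
    apply Finset.card_bij (fun z _ => z0 + z)
    · intro z hz
      simp only [mem_filter, mem_univ, true_and, AddMonoidHom.mem_ker] at hz ⊢
      rw [map_add, hz, add_zero]
    · intro z _ z' _ h
      exact add_left_cancel h
    · intro z hz
      simp only [mem_filter, mem_univ, true_and] at hz
      refine ⟨z - z0, ?_, by abel⟩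
      simp only [mem_filter, mem_univ, true_and, AddMonoidHom.mem_ker]
      rw [map_sub, hz, sub_self]
  have h1 : Nat.card Ψ.ker * Nat.card Ψ.range = M ^ n := by
    rw [← AddSubgroup.index_ker, AddSubgroup.card_mul_index, Nat.card_eq_fintype_card,
      Fintype.card_fun, ZMod.card, Fintype.card_fin]
  have hsurj : Θ.range = ⊤ := by
    rw [AddMonoidHom.range_eq_top]
    intro x
    obtain ⟨y, hy⟩ := ZMod.castHom_surjective hg x
    refine ⟨(y, 0), ?_⟩
    rw [hΘ, Theta_apply]
    simp [hy]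
  have h2 : Nat.card Θ.ker * univ.gcd D = M * ∏ i, D i := by
    have h3 : Nat.card Θ.ker * Nat.card Θ.range = M * ∏ i, D i := by
      rw [← AddSubgroup.index_ker, AddSubgroup.card_mul_index, Nat.card_prod, Nat.card_pi]
      simp
    rw [hsurj] at h3
    rw [← h3]
    simp
  rw [hΨ, range_eq_ker D M _ hg hgD, ← hΘ, ← hΨ] at h1
  rw [hfib]
  have hn : n = (n - 1) + 1 := by
    have := l.pos
    omega
  have h3 : Nat.card Ψ.ker * (∏ i, D i) * M = (M ^ (n - 1) * univ.gcd D) * M := by
    calc Nat.card Ψ.ker * (∏ i, D i) * M = Nat.card Ψ.ker * (M * ∏ i, D i) := by ring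
      _ = (Nat.card Ψ.ker * Nat.card Θ.ker) * univ.gcd D := by rw [← h2]; ring
      _ = M ^ n * univ.gcd D := by rw [h1]
      _ = M ^ ((n - 1) + 1) * univ.gcd D := by rw [← hn]
      _ = (M ^ (n - 1) * univ.gcd D) * M := by ring
  exact Nat.eq_of_mul_eq_mul_right (by omega) h3

/-- the representative of a solution modulo `M` -/
noncomputable def rep (l : Fin n) (z : Fin n → ZMod M) : Fin n → ℤ :=
  fun k => if k = l then - ∑ i ∈ univ.erase l, ((z i).val : ℤ) else ((z k).val : ℤ)

theorem rep_sum (l : Fin n) (z : Fin n → ZMod M) : ∑ i, rep M l z i = 0 := by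
  rw [← Finset.add_sum_erase _ _ (mem_univ l)]
  have h1 : ∑ i ∈ univ.erase l, rep M l z i = ∑ i ∈ univ.erase l, ((z i).val : ℤ) := by
    refine Finset.sum_congr rfl fun i hi => ?_
    rw [rep, if_neg (Finset.ne_of_mem_erase hi)]
  rw [h1, rep, if_pos rfl]
  ring

theorem cast_rep [NeZero M] (l : Fin n) (z : Fin n → ZMod M) (hz : ∑ i, z i = 0) (i : Fin n) :
    ((rep M l z i : ℤ) : ZMod M) = z i := by
  by_cases h : i = l
  · subst h
    rw [rep, if_pos rfl]
    push_cast
    simp only [ZMod.natCast_val, ZMod.cast_id', id]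
    rw [← Finset.add_sum_erase _ _ (mem_univ i)] at hz
    exact (eq_neg_of_add_eq_zero_left hz).symm
  · rw [rep, if_neg h]
    simp

end core

/-- the set of the solutions in the box `[0, M)` is finite, and it has the right number of
elements -/
theorem lat_set (n : ℕ) (D : Fin n → ℕ) (c : Fin n → ℤ) (M : ℕ) (l : Fin n) (hM : 1 ≤ M)
    (hD : ∀ i, 1 ≤ D i ∧ D i ∣ M) (hc : ((univ.gcd D : ℕ) : ℤ) ∣ ∑ i, c i) :
    ∃ F : Finset (Fin n → ℤ), (∀ y, y ∈ F ↔ (∑ i, y i = 0 ∧ (∀ k, k ≠ l → 0 ≤ y k ∧ y k < M) ∧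
      ∀ i, (D i : ℤ) ∣ y i - c i)) ∧ F.card * ∏ i, D i = M ^ (n - 1) * univ.gcd D := by
  classical
  have hNM : NeZero M := ⟨by omega⟩
  have hND : ∀ i, NeZero (D i) := fun i => ⟨by have := (hD i).1; omega⟩
  refine ⟨(univ.filter fun z : Fin n → ZMod M =>
      Psi D M (fun i => (hD i).2) z = (0, fun i => (c i : ZMod (D i)))).image (rep M l), ?_, ?_⟩
  · intro y
    rw [mem_image]
    constructor
    · rintro ⟨z, hz, rfl⟩
      simp only [mem_filter, mem_univ, true_and] at hz
      rw [Psi_apply, Prod.mk.injEq] at hz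
      obtain ⟨hz1, hz2⟩ := hz
      refine ⟨rep_sum M l z, fun k hk => ?_, fun i => ?_⟩
      · rw [rep, if_neg hk]
        exact ⟨by positivity, by exact_mod_cast ZMod.val_lt (z k)⟩
      · have h1 := congrFun hz2 i
        rw [← cast_rep M l z hz1 i, map_intCast] at h1
        have h2 := (ZMod.intCast_eq_intCast_iff_dvd_sub _ _ _).1 h1.symm
        exact h2
    · rintro ⟨hy1, hy2, hy3⟩
      refine ⟨fun i => (y i : ZMod M), ?_, ?_⟩
      · simp only [mem_filter, mem_univ, true_and]
        rw [Psi_apply, Prod.mk.injEq]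
        refine ⟨?_, ?_⟩
        · rw [← Int.cast_sum, hy1, Int.cast_zero]
        · funext i
          rw [map_intCast]
          exact ((ZMod.intCast_eq_intCast_iff_dvd_sub _ _ _).2 (hy3 i)).symm
      · have h1 : ∀ k, k ≠ l → (((y k : ZMod M)).val : ℤ) = y k := by
          intro k hk
          obtain ⟨h2, h3⟩ := hy2 k hk
          rw [ZMod.val_intCast]
          exact Int.emod_eq_of_lt h2 h3
        funext k
        by_cases hk : k = l
        · subst hk
          rw [rep, if_pos rfl]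
          have h2 : ∑ i ∈ univ.erase k, (((y i : ZMod M)).val : ℤ) = ∑ i ∈ univ.erase k, y i :=
            Finset.sum_congr rfl fun i hi => h1 i (Finset.ne_of_mem_erase hi)
          rw [h2]
          rw [← Finset.add_sum_erase _ _ (mem_univ k)] at hy1
          linarith
        · rw [rep, if_neg hk, h1 k hk]
  · rw [Finset.card_image_of_injOn]
    · exact card_fib D M hM hD l c hc
    · intro z hz z' hz' h
      simp only [coe_filter, mem_univ, true_and, Set.mem_setOf_eq] at hz hz'
      rw [Psi_apply, Prod.mk.injEq] at hz hz'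
      funext i
      rw [← cast_rep M l z hz.1 i, ← cast_rep M l z' hz'.1 i, h]

theorem lat : S_LAT := by
  intro n D c M l F hM hD hc hF
  obtain ⟨F', hF', hcard⟩ := lat_set n D c M l hM hD hc
  have h : F = F' := by
    ext y
    rw [hF, hF']
  rw [h]
  exact hcard

end Pool.Agent.N353.NT
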