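import Pool.Agent.N59.TT.Stm

/-! TT/FN (helper353 for helper59): commutators in free groups -/

set_option autoImplicit false

namespace Pool.Agent.N353.TTFN

/-- free groups of rank at most one are commutative -/
theorem comm_of_subsingleton {Y : Type} (hY : ∀ a b : Y, a = b) (p q : FreeGroup Y) :
    Commute p q := by
  have h1 : ∀ (a : Y) (q : FreeGroup Y), Commute (FreeGroup.of a) q := by
    intro a q
    induction q using FreeGroup.induction_on with
    | C1 => exact Commute.one_right _
    | of b => rw [hY b a]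
    | inv_of b h => exact h.inv_right
    | mul p q hp hq => exact hp.mul_right hq
  induction p using FreeGroup.induction_on with
  | C1 => exact Commute.one_left _
  | of a => exact h1 a q
  | inv_of a h => exact h.inv_left
  | mul p p' hp hp' => exact hp.mul_left hp'

theorem perm3 (s t : Equiv.Perm (Fin 3)) (hs : s = Equiv.swap 0 1) (ht : t = Equiv.swap 1 2) :
    s * ((s * t)⁻¹ * (t * s)) ≠ ((s * t)⁻¹ * (t * s)) * s := by
  subst hs ht
  decide

/-- in a free group in which all commutators are central any two elements commute -/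
theorem comm_of_central {L : Type} [Group L] [IsFreeGroup L]
    (h : ∀ p q r : L, r * ((p * q)⁻¹ * (q * p)) = ((p * q)⁻¹ * (q * p)) * r) (p q : L) :
    p * q = q * p := by
  classical
  have hY : ∀ a b : IsFreeGroup.Generators L, a = b := by
    intro a b
    by_contra hab
    let e := IsFreeGroup.toFreeGroup L
    let φ : FreeGroup (IsFreeGroup.Generators L) →* Equiv.Perm (Fin 3) :=
      FreeGroup.lift fun c => if c = a then Equiv.swap 0 1 else if c = b then Equiv.swap 1 2 else 1
    have ha : φ (FreeGroup.of a) = Equiv.swap 0 1 := by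
      show FreeGroup.lift _ (FreeGroup.of a) = _
      rw [FreeGroup.lift_apply_of, if_pos rfl]
    have hb : φ (FreeGroup.of b) = Equiv.swap 1 2 := by
      show FreeGroup.lift _ (FreeGroup.of b) = _
      rw [FreeGroup.lift_apply_of, if_neg (Ne.symm hab), if_pos rfl]
    have h1 := h (e.symm (FreeGroup.of a)) (e.symm (FreeGroup.of b)) (e.symm (FreeGroup.of a))
    have h2 := congrArg (fun w => φ (e w)) h1
    simp only [map_mul, map_inv, MulEquiv.apply_symm_apply] at h2
    exact perm3 _ _ ha hb (by simpa only [map_mul, map_inv, mul_inv_rev] using h2)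
  have h3 := comm_of_subsingleton hY (IsFreeGroup.toFreeGroup L p) (IsFreeGroup.toFreeGroup L q)
  have h4 : IsFreeGroup.toFreeGroup L (p * q) = IsFreeGroup.toFreeGroup L (q * p) := by
    rw [map_mul, map_mul]
    exact h3
  exact (IsFreeGroup.toFreeGroup L).injective h4

theorem main : Pool.Agent.N59.TT.S_FN := by
  intro X x y hx hy
  have hxz : Commute x (x * y * x⁻¹ * y⁻¹) := hx
  have hyz : Commute y (x * y * x⁻¹ * y⁻¹) := hy
  let L : Subgroup (FreeGroup X) := Subgroup.closure {x, y}
  have hxL : x ∈ L := Subgroup.subset_closure (Set.mem_insert _ _)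
  have hyL : y ∈ L := Subgroup.subset_closure (Set.mem_insert_of_mem _ rfl)
  have hzg : ∀ g ∈ L, Commute g (x * y * x⁻¹ * y⁻¹) := by
    intro g hg
    induction hg using Subgroup.closure_induction with
    | mem g hg =>
      rcases hg with rfl | hg
      · exact hxz
      · rw [Set.mem_singleton_iff.1 hg]
        exact hyz
    | one => exact Commute.one_left _
    | mul a b _ _ ha hb => exact ha.mul_left hb
    | inv a _ ha => exact ha.inv_left
  -- the quotient by the centre
  let Q := L ⧸ Subgroup.center L
  have hxy : Commute (QuotientGroup.mk (⟨x, hxL⟩ : L) : Q) (QuotientGroup.mk (⟨y, hyL⟩ : L)) := by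
    show (QuotientGroup.mk (⟨x, hxL⟩ * ⟨y, hyL⟩ : L) : Q) = QuotientGroup.mk (⟨y, hyL⟩ * ⟨x, hxL⟩ : L)
    rw [QuotientGroup.eq, Subgroup.mem_center_iff]
    intro g
    have h1 : Commute (g : FreeGroup X) ((x * y)⁻¹ * (y * x)) := by
      have e1 : (x * y)⁻¹ * (y * x) = (y * x)⁻¹ * (x * y * x⁻¹ * y⁻¹)⁻¹ * (y * x) := by group
      have hz2 := hzg g g.2
      have hz3 : Commute (y * x) (x * y * x⁻¹ * y⁻¹)⁻¹ := (hyz.mul_left hxz).inv_right
      rw [e1, mul_assoc, ← hz3.eq, ← mul_assoc, inv_mul_cancel, one_mul]
      exact hz2.inv_right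
    exact Subtype.ext h1.eq
  have hstep : ∀ g (hg : g ∈ L), Commute (QuotientGroup.mk (⟨g, hg⟩ : L) : Q)
      (QuotientGroup.mk (⟨x, hxL⟩ : L)) ∧ Commute (QuotientGroup.mk (⟨g, hg⟩ : L) : Q)
      (QuotientGroup.mk (⟨y, hyL⟩ : L)) := by
    intro g hg
    induction hg using Subgroup.closure_induction with
    | mem g hg =>
      rcases hg with rfl | hg
      · exact ⟨Commute.refl _, hxy⟩
      · have e : g = y := hg
        subst e
        exact ⟨hxy.symm, Commute.refl _⟩
    | one => exact ⟨Commute.one_left _, Commute.one_left _⟩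
    | mul a b _ _ ha hb => exact ⟨ha.1.mul_left hb.1, ha.2.mul_left hb.2⟩
    | inv a _ ha => exact ⟨ha.1.inv_left, ha.2.inv_left⟩
  have hcomm : ∀ (p : L) (g) (hg : g ∈ L), Commute (QuotientGroup.mk (⟨g, hg⟩ : L) : Q)
      (QuotientGroup.mk p) := by
    intro p g hg
    induction hg using Subgroup.closure_induction with
    | mem g hg =>
      rcases hg with rfl | hg
      · exact (hstep p p.2).1.symm
      · have e : g = y := hg
        subst e
        exact (hstep p p.2).2.symm
    | one => exact Commute.one_left _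
    | mul a b _ _ ha hb => exact ha.mul_left hb
    | inv a _ ha => exact ha.inv_left
  have hcen : ∀ p q r : L, r * ((p * q)⁻¹ * (q * p)) = ((p * q)⁻¹ * (q * p)) * r := by
    intro p q r
    have h1 : (QuotientGroup.mk (p * q) : Q) = QuotientGroup.mk (q * p) := hcomm q p p.2
    rw [QuotientGroup.eq, Subgroup.mem_center_iff] at h1
    exact h1 r
  have h5 := comm_of_central hcen (⟨x, hxL⟩ : L) ⟨y, hyL⟩
  exact congrArg Subtype.val h5

end Pool.Agent.N353.TTFN
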