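import Pool.Agent.N894.WF.DefsN

/-!
# Project WF (helper894), leaf N2 (helper353): small elements generate a nilpotent group
-/

set_option autoImplicit false

namespace Pool.Agent.N353.WF

open N894.WF
open scoped commutatorElement

theorem exists_gap {H : Type} [Group H] [Finite H] (ell : H → ℝ) (h0 : ∀ x, ell x = 0 ↔ x = 1)
    (hp : ∀ x, 0 ≤ ell x) : ∃ δ : ℝ, 0 < δ ∧ ∀ x, ell x < δ → x = 1 := by
  classical
  cases nonempty_fintype H
  by_cases hS : (Finset.univ.filter fun x : H => x ≠ 1).Nonempty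
  · obtain ⟨x0, hx0, hmin⟩ := Finset.exists_min_image _ ell hS
    refine ⟨ell x0, lt_of_le_of_ne (hp x0) fun h => ?_, fun x hx => ?_⟩
    · exact (Finset.mem_filter.1 hx0).2 ((h0 x0).1 h.symm)
    · by_contra h
      exact absurd (hmin x (Finset.mem_filter.2 ⟨Finset.mem_univ _, h⟩)) (not_le.2 hx)
  · refine ⟨1, one_pos, fun x _ => ?_⟩
    by_contra h
    exact hS ⟨x, Finset.mem_filter.2 ⟨Finset.mem_univ _, h⟩⟩

/-- an element which commutes with the generators modulo a normal subgroup -/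
theorem comm_all {H : Type} [Group H] (T : Set H) (Z : Subgroup (Subgroup.closure T)) [Z.Normal]
    (c : Subgroup.closure T)
    (hT : ∀ t (ht : t ∈ T), ⁅c, (⟨t, Subgroup.subset_closure ht⟩ : Subgroup.closure T)⁆ ∈ Z)
    (y : Subgroup.closure T) : ⁅c, y⁆ ∈ Z := by
  obtain ⟨y, hy⟩ := y
  refine Subgroup.closure_induction
    (p := fun y hy => ⁅c, (⟨y, hy⟩ : Subgroup.closure T)⁆ ∈ Z) hT ?_ ?_ ?_ hy
  · have h1 : (⟨1, one_mem _⟩ : Subgroup.closure T) = 1 := rfl
    rw [h1, commutatorElement_one_right]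
    exact one_mem Z
  · intro x y hx hy h1 h2
    have h3 : ⁅c, (⟨x * y, mul_mem hx hy⟩ : Subgroup.closure T)⁆ =
        ⁅c, (⟨x, hx⟩ : Subgroup.closure T)⁆ * ((⟨x, hx⟩ : Subgroup.closure T) *
          ⁅c, (⟨y, hy⟩ : Subgroup.closure T)⁆ * (⟨x, hx⟩ : Subgroup.closure T)⁻¹) := by
      have h4 : (⟨x * y, mul_mem hx hy⟩ : Subgroup.closure T) = ⟨x, hx⟩ * ⟨y, hy⟩ := rfl
      rw [h4]
      simp only [commutatorElement_def]
      group
    show ⁅c, (⟨x * y, mul_mem hx hy⟩ : Subgroup.closure T)⁆ ∈ Z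
    rw [h3]
    exact mul_mem h1 (Subgroup.Normal.conj_mem inferInstance _ h2 _)
  · intro x hx h1
    have h3 : ⁅c, (⟨x⁻¹, inv_mem hx⟩ : Subgroup.closure T)⁆ =
        (⟨x, hx⟩ : Subgroup.closure T)⁻¹ * ⁅c, (⟨x, hx⟩ : Subgroup.closure T)⁆⁻¹ *
          ((⟨x, hx⟩ : Subgroup.closure T)⁻¹)⁻¹ := by
      have h4 : (⟨x⁻¹, inv_mem hx⟩ : Subgroup.closure T) = (⟨x, hx⟩ : Subgroup.closure T)⁻¹ := rfl
      rw [h4]
      simp only [commutatorElement_def]
      group
    show ⁅c, (⟨x⁻¹, inv_mem hx⟩ : Subgroup.closure T)⁆ ∈ Z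
    rw [h3]
    exact Subgroup.Normal.conj_mem inferInstance _ (inv_mem h1) _

theorem t_N2 : N894.WF.LeafN2 := by
  intro H _ _ ell M ε hMε hε hM h0 hp hinv hmul hconj hcomm T hT
  obtain ⟨δ, hδ, hgap⟩ := exists_gap ell h0 hp
  have hρ : 0 ≤ M * ε := mul_nonneg hM hε
  obtain ⟨N, hN⟩ := exists_pow_lt_of_lt_one (div_pos hδ (by positivity : 0 < ε + 1)) hMε
  have hN' : (M * ε) ^ N * ε < δ := by
    have h1 : (M * ε) ^ N * (ε + 1) < δ := (lt_div_iff₀ (by positivity)).1 hN
    have h2 : 0 ≤ (M * ε) ^ N := pow_nonneg hρ N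
    nlinarith
  have key : ∀ j : ℕ, j ≤ N → ∀ c : Subgroup.closure (T : Set H),
      ell (c : H) ≤ (M * ε) ^ (N - j) * ε →
        c ∈ Subgroup.upperCentralSeries (Subgroup.closure (T : Set H)) j := by
    intro j
    induction j with
    | zero =>
      intro _ c hc
      have h1 : (c : H) = 1 := hgap _ (lt_of_le_of_lt hc (by simpa using hN'))
      have h2 : c = 1 := Subtype.ext h1
      rw [h2]
      exact one_mem _
    | succ j ih =>
      intro hj c hc
      rw [Subgroup.mem_upperCentralSeries_succ_iff]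
      refine comm_all (T : Set H) _ c fun t ht => ?_
      refine ih (by omega) _ ?_
      have h1 := hcomm (c : H) t
      have h2 := hT t ht
      have h3 : M * ell (c : H) * ell t ≤ M * ((M * ε) ^ (N - (j + 1)) * ε) * ε :=
        mul_le_mul (mul_le_mul_of_nonneg_left hc hM) h2 (hp t)
          (mul_nonneg hM (mul_nonneg (pow_nonneg hρ _) hε))
      have h4 : M * ((M * ε) ^ (N - (j + 1)) * ε) * ε = (M * ε) ^ (N - j) * ε := by
        have h5 : N - j = (N - (j + 1)) + 1 := by omega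
        rw [h5, pow_succ]
        ring
      exact (h1.trans h3).trans h4.le
  have htop : Subgroup.upperCentralSeries (Subgroup.closure (T : Set H)) N = ⊤ := by
    rw [eq_top_iff]
    rintro ⟨y, hy⟩ _
    refine Subgroup.closure_induction (p := fun y hy => (⟨y, hy⟩ : Subgroup.closure (T : Set H)) ∈
      Subgroup.upperCentralSeries (Subgroup.closure (T : Set H)) N) ?_ ?_ ?_ ?_ hy
    · intro t ht
      refine key N le_rfl _ ?_
      rw [Nat.sub_self, pow_zero, one_mul]
      exact hT t ht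
    · exact one_mem _
    · intro x y hx hy h1 h2
      exact mul_mem h1 h2
    · intro x hx h1
      exact inv_mem h1
  exact ⟨⟨N, htop⟩⟩

end Pool.Agent.N353.WF
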