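import Pool.Agent.N894.WF.DefsS

/-!
# Project WF (helper894), leaf S1 (helper353): sofic groups are rank-sofic
-/

set_option autoImplicit false

namespace Pool.Agent.N353.WF

open N894.WF Finset

theorem t_S1 : N894.WF.LeafS1 := by
  classical
  intro G _ hG F K
  obtain ⟨δ, hδ, hS⟩ := hG
  have hK : (0 : ℝ) < (K : ℝ) + 1 := by positivity
  obtain ⟨n, φ, hn, h1, h2⟩ := hS (F ∪ (F ×ˢ F).image fun p => p.1 * p.2) (δ / ((K : ℝ) + 1))
    (div_pos hδ hK)
  refine ⟨Equiv.Perm (Fin n), inferInstance, inferInstance, φ, ?_⟩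
  intro T hT hE g hg hg1 hmem
  have hn' : (0 : ℝ) < n := by exact_mod_cast hn
  have hmv : ∀ t ∈ T, ((univ.filter fun x => t x ≠ x).card : ℝ) ≤ δ / ((K : ℝ) + 1) * n := by
    intro t ht
    obtain ⟨x, a, ha, c, hc, rfl⟩ := hE t ht
    have h3 := h1 a (mem_union_left _ ha) c (mem_union_left _ hc)
      (mem_union_right _ (mem_image.2 ⟨(a, c), mem_product.2 ⟨ha, hc⟩, rfl⟩))
    refine le_trans ?_ h3
    have h4 : (univ.filter fun y => (x * (φ a * φ c * (φ (a * c))⁻¹) * x⁻¹) y ≠ y).card ≤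
        (univ.filter fun z => φ (a * c) z ≠ φ a (φ c z)).card := by
      refine card_le_card_of_injOn (fun y => (φ (a * c))⁻¹ (x⁻¹ y)) ?_ ?_
      · intro y hy
        rw [mem_coe, mem_filter] at hy ⊢
        refine ⟨mem_univ _, fun h => hy.2 ?_⟩
        show x (φ a (φ c ((φ (a * c))⁻¹ (x⁻¹ y)))) = y
        rw [← h]
        simp
      · intro y _ z _ hyz
        exact x⁻¹.injective ((φ (a * c))⁻¹.injective hyz)
    exact_mod_cast h4
  have hfix : ∀ y : Fin n, (∀ t ∈ T, t y = y) → φ g y = y := by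
    intro y hy
    have h3 : Subgroup.closure (T : Set (Equiv.Perm (Fin n))) ≤
        MulAction.stabilizer (Equiv.Perm (Fin n)) y := by
      rw [Subgroup.closure_le]
      intro t ht
      exact hy t ht
    exact h3 hmem
  have hsub : (univ.filter fun x => φ g x ≠ x) ⊆ T.biUnion fun t => univ.filter fun x => t x ≠ x := by
    intro y hy
    rw [mem_filter] at hy
    by_contra hc
    refine hy.2 (hfix y fun t ht => ?_)
    by_contra h3
    exact hc (mem_biUnion.2 ⟨t, ht, mem_filter.2 ⟨mem_univ _, h3⟩⟩)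
  have h5 : ((univ.filter fun x => φ g x ≠ x).card : ℝ) ≤ K * (δ / ((K : ℝ) + 1) * n) := by
    have h6 : (univ.filter fun x => φ g x ≠ x).card ≤
        ∑ t ∈ T, (univ.filter fun x => t x ≠ x).card := (card_le_card hsub).trans card_biUnion_le
    calc ((univ.filter fun x => φ g x ≠ x).card : ℝ)
        ≤ ((∑ t ∈ T, (univ.filter fun x => t x ≠ x).card : ℕ) : ℝ) := by exact_mod_cast h6
      _ = ∑ t ∈ T, ((univ.filter fun x => t x ≠ x).card : ℝ) := by push_cast; rfl
      _ ≤ ∑ _t ∈ T, (δ / ((K : ℝ) + 1) * n) := sum_le_sum hmv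
      _ = T.card * (δ / ((K : ℝ) + 1) * n) := by rw [sum_const, nsmul_eq_mul]
      _ ≤ K * (δ / ((K : ℝ) + 1) * n) := by
        refine mul_le_mul_of_nonneg_right (by exact_mod_cast hT) ?_
        positivity
  have h7 := h2 g (mem_union_left _ hg) hg1
  have h8 : (K : ℝ) * (δ / ((K : ℝ) + 1) * n) < δ * n := by
    have h9 : (K : ℝ) * (δ / ((K : ℝ) + 1) * n) = (K / ((K : ℝ) + 1)) * (δ * n) := by
      field_simp
    rw [h9]
    have h10 : (K : ℝ) / ((K : ℝ) + 1) < 1 := by
      rw [div_lt_one hK]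
      linarith
    calc (K : ℝ) / ((K : ℝ) + 1) * (δ * n) < 1 * (δ * n) :=
          mul_lt_mul_of_pos_right h10 (mul_pos hδ hn')
      _ = δ * n := one_mul _
  linarith

end Pool.Agent.N353.WF
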